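import Pool.Agent.H28.LF.T1
import Pool.Agent.H28.LF.T2
import Pool.Agent.H74.AG.S4b
import Pool.Agent.H19.AG.EC

/-!
# X6b: the bound of the switching lemma is additive and the steps are small
-/

set_option autoImplicit false

open MeasureTheory ProbabilityTheory Filter Topology Finset
open scoped Nat ENNReal

namespace Pool.Agent.H49.LF

open Pool.Agent.H24.T2 (Pset)
open Pool.Agent.H67.AG (avgP ul Inv Rt Av SA kap JJ TT InvZ nxt triv tow XN PN TN XX PX TX prX Fac
  T_UL T_EC)
open Pool.Agent.H28.LF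
open Pool.Agent.H74.AG (AB meas_it meas_Av Av_bd ce_bd)

theorem AB_mono {Ω : Type} [MeasurableSpace Ω] {C C' : ℝ} {f : Set Ω → ℝ} (h : AB C f)
    (hC : C ≤ C') : AB C' f :=
  ⟨h.nn, fun B hB => (h.le B hB).trans hC, h.ad⟩

section meas

variable {d : Sx} (e : SxE d)

theorem meas_y {s : e.Ω → Fin d.n} (hs : Measurable s) :
    Measurable fun ω => d.y (s ω) (e.g ω) := by
  have h : Measurable fun q : Fin d.n × d.Ω' => d.y q.1 q.2 :=
    measurable_from_prod_countable_right fun b => d.ym b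
  exact h.comp (hs.prodMk e.fac.1.measurable)

theorem meas_ne {s t : e.Ω → Fin d.n} (hs : Measurable s) (ht : Measurable t) :
    MeasurableSet {ω : e.Ω | s ω = t ω} := measurableSet_eq_fun hs ht

theorem meas_mv (l : ℕ) : Measurable (e.mv l) := by
  classical
  have h : MeasurableSet {ω : e.Ω | e.s (e.T^[l] ω) = e.s ω} :=
    meas_ne e (e.sm.comp (meas_it e.T _)) e.sm
  unfold SxE.mv
  exact Measurable.ite h measurable_const measurable_const

theorem mv_bd (l : ℕ) (ω : e.Ω) : 0 ≤ e.mv l ω ∧ e.mv l ω ≤ 1 := by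
  unfold SxE.mv
  split_ifs <;> norm_num

theorem inv_le {Ω : Type} [m : MeasurableSpace Ω] (T : Ω ≃ᵐ Ω) (n : ℕ) :
    Inv T n ≤ m := MeasurableSpace.invariants_le _

theorem meas_Pt' {s t : e.Ω → Fin d.n} (hs : Measurable s) (ht : Measurable t) :
    MeasurableSet {ω : e.Ω | e.g ω ∈ d.e (s ω) (t ω)} := by
  have h : {ω : e.Ω | e.g ω ∈ d.e (s ω) (t ω)} =
      ⋃ a : Fin d.n, ⋃ b : Fin d.n, ((s ⁻¹' {a}) ∩ (t ⁻¹' {b})) ∩ (e.g ⁻¹' (d.e a b)) := by
    ext ω
    simp only [Set.mem_ofPred_eq, Set.mem_iUnion, Set.mem_inter_iff, Set.mem_preimage,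
      Set.mem_singleton_iff]
    constructor
    · intro h
      exact ⟨_, _, ⟨rfl, rfl⟩, h⟩
    · rintro ⟨a, b, ⟨h1, h2⟩, h3⟩
      rw [h1, h2]
      exact h3
  rw [h]
  exact MeasurableSet.iUnion fun a => MeasurableSet.iUnion fun b =>
    ((hs (measurableSet_singleton a)).inter (ht (measurableSet_singleton b))).inter
      (e.fac.1.measurable (inv_le _ _ _ (d.em a b)))

theorem meas_Pt (t : ℕ) : Measurable (e.Pt t) := by
  classical
  unfold SxE.Pt
  exact Measurable.ite (meas_Pt' e e.sm (e.sm.comp (meas_it e.T _))) measurable_const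
    measurable_const

theorem Pt_bd (t : ℕ) (ω : e.Ω) : 0 ≤ e.Pt t ω ∧ e.Pt t ω ≤ 1 := by
  unfold SxE.Pt
  split_ifs <;> norm_num

theorem meas_dm {Ω : Type} [MeasurableSpace Ω] {q : ℕ} {a a' : Ω → Fin q}
    (h : Measurable a) (h' : Measurable a') : Measurable (dm a a') := by
  classical
  unfold dm
  exact Measurable.ite (measurableSet_eq_fun h h') measurable_const measurable_const

theorem dm_bd {Ω : Type} {q : ℕ} (a a' : Ω → Fin q) (ω : Ω) : |dm a a' ω| ≤ 1 := by
  unfold dm
  split_ifs <;> norm_num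

theorem meas_FF (p : ℕ) (j : Fin (30 * d.K + d.K) → Fin d.n) : Measurable (d.FF p j) := by
  classical
  have h : Measurable fun ω => fun i => d.y (j i) (d.T'^[p * ((i : ℕ) + 1)] ω) :=
    measurable_pi_iff.mpr fun i => (d.ym (j i)).comp (meas_it d.T' _)
  have h2 : MeasurableSet {ω | (fun i => d.y (j i) (d.T'^[p * ((i : ℕ) + 1)] ω)) ∈ d.Bad p} :=
    h (Set.toFinite (d.Bad p)).measurableSet
  unfold Sx.FF
  exact Measurable.ite h2 measurable_const measurable_const

theorem FF_bd (p : ℕ) (j : Fin (30 * d.K + d.K) → Fin d.n) (ω : d.Ω') : |d.FF p j ω| ≤ 1 := by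
  unfold Sx.FF
  split_ifs <;> norm_num

theorem meas_gg (a b : Fin d.n) : Measurable (d.gg a b) := meas_dm (d.ym a) (d.ym b)

theorem gg_bd (a b : Fin d.n) (ω : d.Ω') : |d.gg a b ω| ≤ 1 := dm_bd _ _ _

end meas

theorem AB_int01 {Ω : Type} [MeasurableSpace Ω] (P : Measure Ω) [IsProbabilityMeasure P]
    (s : ℝ) (hs : s = 0 ∨ s = 1) {C : ℝ} (hC : 0 ≤ C) {f : Set Ω → ℝ} (hf : AB C f) :
    AB C (fun B => s * f B) := by
  have h0 : 0 ≤ s := by rcases hs with h | h <;> rw [h] <;> norm_num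
  have h1 : s ≤ 1 := by rcases hs with h | h <;> rw [h] <;> norm_num
  exact AB_mono (hf.mul s h0) (by nlinarith)

/-- the bound of the switching lemma is additive -/
theorem EE_AB (hul : T_UL) (d : Sx) (e : SxE d) (L L₂ N : ℕ) (ε : ℝ) (hε : 0 ≤ ε) :
    ∃ C, AB C (e.EE L L₂ N ε) := by
  have hK : (0 : ℝ) ≤ d.K := Nat.cast_nonneg _
  have hmv : ∀ l, AB 1 (fun B => ∫ ω in B, e.mv l ω ∂e.P) := fun l =>
    AB.int e.P (meas_mv e l) (fun ω => (mv_bd e l ω).1)
      (Filter.Eventually.of_forall fun ω => (mv_bd e l ω).2)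
  have hLam : AB 1 (fun B => La d.U d.s e.P e.T e.ys d.Bad B) := by
    unfold La
    exact AB.ul hul _ fun m => AB.avg zero_le_one _ _ fun p =>
      AB_int01 e.P (d.s p) (d.sv p) zero_le_one (AB.inter e.P _)
  have hE2 : AB _ (fun B => e.E2 L B) :=
    AB.sum (Finset.univ : Finset (Fin (30 * d.K + d.K) → Fin d.n)) (C := fun _ => 2)
    (f := fun j B => ul (hyperfilter ℕ) fun L'' => ul d.U fun m => avgP 2 m fun p =>
      d.s p *
      ∫ ω in B, |Av d.T' 1 L (d.FF p j) (e.g ω) - Av d.T' 1 L'' (d.FF p j) (e.g ω)| ∂e.P)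
    (fun j => AB.ul hul _ fun L'' => AB.ul hul _ fun m => AB.avg (by norm_num) _ _ fun p =>
      AB_int01 e.P (d.s p) (d.sv p) (by norm_num) <| AB.int e.P
        (((meas_Av d.T' 1 L (meas_FF p j)).comp e.fac.1.measurable).sub
          ((meas_Av d.T' 1 L'' (meas_FF p j)).comp e.fac.1.measurable)).abs
        (fun ω => abs_nonneg _)
        (Filter.Eventually.of_forall fun ω => by
          have h1 := Av_bd d.T' 1 L (FF_bd p j) (e.g ω)
          have h2 := Av_bd d.T' 1 L'' (FF_bd p j) (e.g ω)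
          rw [abs_le] at h1 h2 ⊢
          constructor <;> linarith))
  have hE4 : AB _ (fun B => e.E4 L₂ B) :=
    ((AB.sum (range L₂) fun l => hmv l).mul (2 / (L₂ : ℝ)) (by positivity)).add
      (AB.sum (Finset.univ : Finset (Fin d.n)) fun a =>
        AB.sum (Finset.univ : Finset (Fin d.n)) fun b =>
          AB.int (C := 2) e.P
            (((meas_Av d.T' 1 L₂ (meas_gg a b)).comp e.fac.1.measurable).sub
              ((stronglyMeasurable_condExp.measurable.mono
                (MeasurableSpace.invariants_le _) le_rfl).comp e.fac.1.measurable)).abs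
            (fun ω => abs_nonneg _)
            (by
              have h3 := e.fac.1.quasiMeasurePreserving.ae
                (ce_bd d.P' (Inv d.T' 1) (gg_bd a b))
              filter_upwards [h3] with ω h2
              have h1 := Av_bd d.T' 1 L₂ (gg_bd a b) (e.g ω)
              rw [abs_le] at h1 h2 ⊢
              constructor <;> linarith))
  have hfin := ((((hLam.mul 2 (by norm_num)).add
    ((AB.sum (range L) fun l => hmv l).mul (2 * (31 * (d.K : ℝ)) / (L : ℝ))
      (by positivity))).add hE2).add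
      (hE4.mul (30 * (d.K : ℝ)) (by positivity))).add
        ((((AB.sum (range N) fun r => hmv r).mul 4 (by norm_num)).add
          ((AB.real e.P).mul ε hε)).mul (2 * (30 * (d.K : ℝ)) ^ 2) (by positivity))
  exact ⟨_, hfin⟩

/-- (X6b) the bound is additive and the steps are small. -/
theorem pf_X6b' (hul : T_UL) (hec : T_EC) : T_X6b := by
  intro d e L L₂ N ε _ _ hε
  obtain ⟨C, hC⟩ := EE_AB hul d e L L₂ N ε hε
  refine ⟨fun B hB => hC.nn B (inv_le _ _ _ hB),
    fun B B' hB hB' => hC.ad B B' (inv_le _ _ _ hB) (inv_le _ _ _ hB'), ?_, ?_⟩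
  · have h : e.Pt 0 = 0 := by
      funext ω
      unfold SxE.Pt
      rw [if_pos]
      · rfl
      · exact d.erefl _ _
    filter_upwards with ω
    rw [h, condExp_zero]
    rfl
  · intro t
    have hstep : ∀ ω, |e.Pt (t + 1) ω - e.Pt t ω| ≤ e.mv 1 (e.T^[t] ω) := by
      intro ω
      have hit : e.T^[1] (e.T^[t] ω) = e.T^[t + 1] ω := by
        rw [show t + 1 = 1 + t by ring, Function.iterate_add_apply]
      unfold SxE.mv
      rw [hit]
      split_ifs with h
      · have : e.Pt (t + 1) ω = e.Pt t ω := by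
          unfold SxE.Pt
          rw [h]
        rw [this]
        simp
      · have h1 := Pt_bd e (t + 1) ω
        have h2 := Pt_bd e t ω
        rw [abs_le]
        constructor <;> linarith [h1.1, h1.2, h2.1, h2.2]
    have hint : ∀ {f : e.Ω → ℝ}, Measurable f → (∀ ω, 0 ≤ f ω ∧ f ω ≤ 1) → Integrable f e.P := by
      intro f hf hb
      apply Integrable.of_bound hf.aestronglyMeasurable 1
      filter_upwards with ω
      rw [Real.norm_eq_abs, abs_of_nonneg (hb ω).1]
      exact (hb ω).2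
    have hPt : ∀ s : ℕ, Integrable (e.Pt s) e.P := fun s => hint (meas_Pt e s) (Pt_bd e s)
    have hmvi : Integrable (fun ω => e.mv 1 (e.T^[t] ω)) e.P :=
      hint ((meas_mv e 1).comp (meas_it e.T _)) fun ω => mv_bd e 1 _
    obtain ⟨hec1, hec2⟩ := hec e.Ω e.P e.T 1 t (e.mv 1) e.mp (meas_mv e 1)
      ⟨1, fun ω => by rw [abs_of_nonneg (mv_bd e 1 ω).1]; exact (mv_bd e 1 ω).2⟩
    have hinv : ∀ (n : ℕ) (ω : e.Ω), (e.P[e.mv 1 | Inv e.T 1]) (e.T^[n] ω) =
        (e.P[e.mv 1 | Inv e.T 1]) ω := by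
      intro n
      induction n with
      | zero => intro ω; simp
      | succ n ih =>
        intro ω
        rw [Function.iterate_add_apply, ih, hec2]
    have h1 : e.P[e.Pt (t + 1) | Inv e.T 1] ≤ᵐ[e.P]
        e.P[e.Pt t + (fun ω => e.mv 1 (e.T^[t] ω)) | Inv e.T 1] := by
      apply condExp_mono (hPt _) ((hPt _).add hmvi)
      filter_upwards with ω
      have := (abs_le.mp (hstep ω)).2
      simp only [Pi.add_apply]
      linarith
    have h2 : e.P[e.Pt t | Inv e.T 1] ≤ᵐ[e.P]
        e.P[e.Pt (t + 1) + (fun ω => e.mv 1 (e.T^[t] ω)) | Inv e.T 1] := by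
      apply condExp_mono (hPt _) ((hPt _).add hmvi)
      filter_upwards with ω
      have := (abs_le.mp (hstep ω)).1
      simp only [Pi.add_apply]
      linarith
    filter_upwards [h1, h2, condExp_add (hPt t) hmvi (Inv e.T 1),
      condExp_add (hPt (t + 1)) hmvi (Inv e.T 1), hec1] with ω a1 a2 a3 a4 a5
    rw [a3] at a1
    rw [a4] at a2
    simp only [Pi.add_apply] at a1 a2
    rw [a5, hinv] at a1 a2
    rw [abs_le]
    constructor <;> linarith

/-- (X6b) with the hypotheses of the board. -/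
theorem pf_X6b (_hL : T_LAB) (hU : Pool.Agent.H67.AG.T_UL) : T_X6b :=
  pf_X6b' hU Pool.Agent.H19.AG.pf_EC

end Pool.Agent.H49.LF
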