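import Pool.Agent.H25.LF.Targets

/-!
# CNV: from the weight to the number
-/

set_option autoImplicit false

open Finset Real ArithmeticFunction

open Pool.Agent.H25.LF

namespace Pool.Agent.H49.LF

/-- CNV -/
theorem pf_CNV : T_CNV := by
  intro δ x d hδ hδ1 hx
  have hL : 0 < Real.log x := Real.log_pos hx
  have hx0 : 0 < x := by linarith
  have hd : 0 < 1 - δ := by linarith
  obtain ⟨S, hS⟩ : ∃ S, S = (PR x).filter (Dv d) := ⟨_, rfl⟩
  have h1 : ((S.filter (fun p : ℕ => (p : ℝ) ≤ x ^ (1 - δ))).card : ℝ) ≤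
      NN (x ^ (1 - δ)) d := by
    have h : S.filter (fun p : ℕ => (p : ℝ) ≤ x ^ (1 - δ)) ⊆
        (PR (x ^ (1 - δ))).filter (Dv d) := by
      intro p hp
      rw [Finset.mem_filter, hS, Finset.mem_filter, PR, Finset.mem_filter, Finset.mem_Icc] at hp
      rw [Finset.mem_filter, PR, Finset.mem_filter, Finset.mem_Icc]
      exact ⟨⟨⟨hp.1.1.1.1, Nat.le_floor hp.2⟩, hp.1.1.2⟩, hp.1.2⟩
    have h' := Finset.card_le_card h
    unfold NN
    exact_mod_cast h'
  have h2 : ((S.filter (fun p : ℕ => ¬ (p : ℝ) ≤ x ^ (1 - δ))).card : ℝ) * Real.log x ≤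
      LL x d / (1 - δ) := by
    rw [← nsmul_eq_mul, ← Finset.sum_const, LL, Finset.sum_div]
    have h3 : ∀ p ∈ S.filter (fun p : ℕ => ¬ (p : ℝ) ≤ x ^ (1 - δ)),
        Real.log x ≤ Λ p / (1 - δ) := by
      intro p hp
      rw [Finset.mem_filter, hS, Finset.mem_filter, PR, Finset.mem_filter, Finset.mem_Icc] at hp
      rw [vonMangoldt_apply_prime hp.1.1.2, le_div_iff₀ hd, mul_comm]
      have h4 : x ^ (1 - δ) ≤ (p : ℝ) := (not_le.1 hp.2).le
      have h5 := Real.log_le_log (Real.rpow_pos_of_pos hx0 _) h4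
      rw [Real.log_rpow hx0] at h5
      exact h5
    refine (Finset.sum_le_sum h3).trans (Finset.sum_le_sum_of_subset_of_nonneg ?_ ?_)
    · intro p hp
      rw [Finset.mem_filter, hS, Finset.mem_filter, PR, Finset.mem_filter] at hp
      rw [Finset.mem_filter]
      exact ⟨hp.1.1.1, hp.1.2⟩
    · intro p _ _
      exact div_nonneg vonMangoldt_nonneg hd.le
  have h3 : ((S.filter (fun p : ℕ => (p : ℝ) ≤ x ^ (1 - δ))).card : ℝ) +
      ((S.filter (fun p : ℕ => ¬ (p : ℝ) ≤ x ^ (1 - δ))).card : ℝ) = NN x d := by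
    have h := Finset.card_filter_add_card_filter_not (s := S)
      (fun p : ℕ => (p : ℝ) ≤ x ^ (1 - δ))
    unfold NN
    rw [← hS]
    exact_mod_cast h
  have h4 := mul_le_mul_of_nonneg_right h1 hL.le
  rw [← h3, add_mul]
  linarith

end Pool.Agent.H49.LF
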