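import Pool.Agent.H28.LF.F1
import Pool.Agent.H27.T2.Sign

/-!
# YMR: the theorem of Matomaki and Radziwill on the `y`-side
-/

set_option autoImplicit false

open MeasureTheory ProbabilityTheory Filter Topology Finset
open scoped Nat ENNReal

namespace Pool.Agent.H49.LF

open Pool.Agent.H24.MR (lam FinAddInv)
open Pool.Agent.H28.LF
open Pool.Agent.H28.MCL (ldB Aw)

theorem shY_iter (k : ℕ) (ω : Yi) (t : ℤ) : (shY^[k] ω) t = ω (t + k) := by
  induction k generalizing ω t with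
  | zero => simp
  | succ k ih =>
    rw [Function.iterate_succ_apply', show shY (shY^[k] ω) t = (shY^[k] ω) (t + 1) from rfl, ih]
    congr 1
    push_cast
    ring

theorem sg_lam (n : ℕ) : sg (decide (lam n = 1)) = lam n := by
  have h0 : lam n = 1 ∨ lam n = -1 := neg_one_pow_eq_or ℝ _
  rcases h0 with h | h
  · unfold sg
    rw [h]
    simp
  · unfold sg
    rw [h]
    norm_num

theorem bt_pt (τ : ℕ → ℕ → Bool) (n k : ℕ) :
    sg (btY (shY^[k] (ptS (lY τ) n))).1 = lam (n + k) := by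
  have h1 : btY (shY^[k] (ptS (lY τ) n)) = lt (n + k) := by
    unfold btY
    rw [shY_iter]
    unfold ptS lY
    have e : ((n : ℤ) + (0 + (k : ℤ))).toNat = n + k := by
      rw [zero_add]
      exact_mod_cast Int.toNat_natCast (n + k)
    rw [e]
  rw [h1]
  exact sg_lam _

theorem fai_range {μ : Set ℕ → ℝ} (h : FinAddInv μ) (n : ℕ) (A : ℕ → Set ℕ) (c : ℝ)
    (hA : ∀ i, i < n → μ (A i) ≤ c) : μ {z | ∃ i, i < n ∧ z ∈ A i} ≤ n * c := by
  induction n with
  | zero =>
    have e : {z : ℕ | ∃ i, i < 0 ∧ z ∈ A i} = ∅ := by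
      ext z; simp
    have h0 : μ ∅ = 0 := by
      have := h.add ∅ ∅ (by simp)
      rw [Set.union_empty] at this
      linarith
    rw [e, h0]
    simp
  | succ n ih =>
    have e : {z : ℕ | ∃ i, i < n + 1 ∧ z ∈ A i} ⊆ {z | ∃ i, i < n ∧ z ∈ A i} ∪ A n := by
      rintro z ⟨i, hi, hz⟩
      rcases Nat.lt_succ_iff_lt_or_eq.1 hi with h1 | h1
      · exact Or.inl ⟨i, h1, hz⟩
      · subst h1; exact Or.inr hz
    have h1 := Pool.Agent.H27.T2.fai_mono h e
    have h2 := Pool.Agent.H27.T2.fai_union h {z | ∃ i, i < n ∧ z ∈ A i} (A n)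
    have h3 := ih fun i hi => hA i (by omega)
    have h4 := hA n (by omega)
    push_cast
    linarith

/-- (YMR) -/
theorem pf_YMR (hL : Pool.Agent.H28.MCL.T_LDB) (hM : Pool.Agent.H28.MCL.T_LDM) : T_YMR := by
  intro U x y τ P hA hP W hW ε hε
  have hfa := (hL U x y hA).1
  have hmr := hM U x y hA
  have hW' : (0 : ℝ) < W := by exact_mod_cast hW
  have hW1 : (1 : ℝ) ≤ W := by exact_mod_cast hW
  have hε' : 0 < ε / W := by positivity
  have hex : ∀ b : ℕ, ∃ h₀ : ℕ, ∀ h, h₀ ≤ h → ldB U x y {z | z ≡ b [MOD W] ∧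
      ε / W * h ≤ |∑ y ∈ Finset.range h, lam (z + W * y)|} ≤ ε / W := fun b =>
    hmr W b (ε / W) hW hε'
  choose h₀ hh₀ using hex
  refine ⟨(Finset.range W).sup h₀, fun h hh => ?_⟩
  have hclo : IsClopen {ω : Yi | ε * h ≤ |∑ y ∈ range h, sg (btY (shY^[W * y] ω)).1|} := by
    have hD : Continuous (fun ω : Yi => fun i : Fin h => (btY (shY^[W * (i : ℕ)] ω)).1) := by
      refine continuous_pi fun i => ?_
      have e : (fun ω : Yi => (btY (shY^[W * (i : ℕ)] ω)).1) =
          fun ω : Yi => (ω (0 + ((W * (i : ℕ) : ℕ) : ℤ))).1.1 := by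
        funext ω
        unfold btY
        rw [shY_iter]
      rw [e]
      exact continuous_fst.comp (continuous_fst.comp (continuous_apply _))
    have e : {ω : Yi | ε * h ≤ |∑ y ∈ range h, sg (btY (shY^[W * y] ω)).1|} =
        (fun ω : Yi => fun i : Fin h => (btY (shY^[W * (i : ℕ)] ω)).1) ⁻¹'
          {b | ε * h ≤ |∑ i, sg (b i)|} := by
      ext ω
      simp only [Set.mem_ofPred_eq, Set.mem_preimage]
      rw [Finset.sum_range]
    rw [e]
    exact (isClopen_discrete _).preimage hD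
  rw [hP.clo _ hclo]
  have hsub : {n : ℕ | ptS (lY τ) n ∈
      {ω : Yi | ε * h ≤ |∑ y ∈ range h, sg (btY (shY^[W * y] ω)).1|}} ⊆
      {z | ∃ b, b < W ∧ z ∈ {z | z ≡ b [MOD W] ∧
        ε / W * h ≤ |∑ y ∈ Finset.range h, lam (z + W * y)|}} := by
    intro n hn
    have hn' : ε * h ≤ |∑ y ∈ range h, sg (btY (shY^[W * y] (ptS (lY τ) n))).1| := hn
    refine ⟨n % W, Nat.mod_lt _ hW, (Nat.mod_modEq n W).symm, ?_⟩
    have e : ∑ y ∈ range h, sg (btY (shY^[W * y] (ptS (lY τ) n))).1 =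
        ∑ y ∈ Finset.range h, lam (n + W * y) :=
      Finset.sum_congr rfl fun y _ => bt_pt τ n _
    rw [e] at hn'
    refine le_trans ?_ hn'
    have h1 : ε / W ≤ ε := div_le_self hε.le hW1
    exact mul_le_mul_of_nonneg_right h1 (Nat.cast_nonneg _)
  have h1 := Pool.Agent.H27.T2.fai_mono hfa hsub
  have h2 := fai_range hfa W (fun b => {z | z ≡ b [MOD W] ∧
        ε / W * h ≤ |∑ y ∈ Finset.range h, lam (z + W * y)|}) (ε / W) fun b hb =>
    hh₀ b h (le_trans (Finset.le_sup (f := h₀) (Finset.mem_range.2 hb)) hh)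
  have h3 : (W : ℝ) * (ε / W) = ε := by field_simp
  rw [h3] at h2
  exact h1.trans h2

end Pool.Agent.H49.LF
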